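import Pool.Agent.Work.MP_4833ba_an.Core
import Pool.Agent.Work.MP_4833ba_an.Banach
import Pool.Agent.Work.MP_4833ba_an.Hedge.Space

set_option autoImplicit false

open Filter Topology

namespace Pool.Agent.Results.MP_4833ba_an.EltonSharp

universe u

/-- `y` is `δ`-near unconditional with constant `K`: its basis constant is at most `K`, and
projections onto sets of coefficients of modulus at least `δ` have norm at most `K` on vectors
with coefficients of modulus at most one. -/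
def NearUncond {X : Type u} [NormedAddCommGroup X] [NormedSpace ℝ X] (δ K : ℝ) (y : ℕ → X) :
    Prop :=
  (∀ (a : ℕ → ℝ) (m k : ℕ), m ≤ k →
    ‖∑ i ∈ Finset.range m, a i • y i‖ ≤ K * ‖∑ i ∈ Finset.range k, a i • y i‖) ∧
  ∀ (k : ℕ) (a : ℕ → ℝ), (∀ i ≤ k, |a i| ≤ 1) → ∀ G : Finset ℕ, (∀ i ∈ G, i ≤ k ∧ δ ≤ |a i|) →
    ‖∑ i ∈ G, a i • y i‖ ≤ K * ‖∑ i ∈ Finset.range (k + 1), a i • y i‖

/-- every normalized weakly null sequence in every real Banach space has a subsequence that is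
`δ`-near unconditional with constant `K` -/
def Works (δ K : ℝ) : Prop :=
  ∀ (X : Type u) [NormedAddCommGroup X] [NormedSpace ℝ X] [CompleteSpace X] (x : ℕ → X),
    (∀ n, ‖x n‖ = 1) → (∀ f : X →L[ℝ] ℝ, Tendsto (fun n => f (x n)) atTop (𝓝 0)) →
      ∃ φ : ℕ → ℕ, StrictMono φ ∧ NearUncond δ K (fun n => x (φ n))

/-- the Elton constant `K(δ)` -/
noncomputable def eltonK (δ : ℝ) : ℝ := sInf {K : ℝ | 1 ≤ K ∧ Works.{u} δ K}

/-- The Elton constants exceed every number below two for all small `δ`. -/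
theorem result : ∀ K : ℝ, K < 2 → ∃ δ₀ : ℝ, 0 < δ₀ ∧ δ₀ ≤ 1 ∧
    ∀ δ : ℝ, 0 < δ → δ ≤ δ₀ → K < eltonK.{u} δ := by
  intro K hK
  obtain ⟨k₀, hk₀⟩ := exists_nat_gt (24 / (2 - K))
  obtain ⟨k, hk, hk'⟩ : ∃ k : ℕ, 2 ≤ k ∧ 24 / (2 - K) < k :=
    ⟨k₀ + 2, by omega, by push_cast; linarith⟩
  have hk1 : (1 : ℝ) ≤ k := by exact_mod_cast (show 1 ≤ k by omega)
  refine ⟨((k : ℝ) ^ k)⁻¹, by positivity, inv_le_one_of_one_le₀ (one_le_pow₀ hk1),
    fun δ hδ hδ' => ?_⟩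
  have h24 : 24 / (k : ℝ) < 2 - K := by
    rw [div_lt_iff₀ (by linarith)] at hk' ⊢
    linarith
  refine lt_of_lt_of_le (show K < 2 - 24 / (k : ℝ) by linarith) (le_csInf ⟨3, by norm_num, ?_⟩ ?_)
  · exact fun X _ _ _ x hn hx => Pool.Agent.Work.MP_4833ba_an.near_unconditional
      Pool.Agent.Work.MP_4833ba_an.core hn hx hδ (by norm_num)
  · rintro L ⟨hL, hW⟩
    obtain ⟨φ, hφ, -, h⟩ := hW (Pool.Agent.Work.MP_4833ba_an.Hedge.Sp.{u} k)
      (Pool.Agent.Work.MP_4833ba_an.Hedge.xs hk) (Pool.Agent.Work.MP_4833ba_an.Hedge.norm_xs hk)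
      (Pool.Agent.Work.MP_4833ba_an.Hedge.xs_weakly_null hk)
    obtain ⟨m, a, G, h1, h2, h3, h4⟩ := Pool.Agent.Work.MP_4833ba_an.Hedge.exists_bad.{u} hk hφ
    have h5 := h m a (fun i _ => h1 i) G fun i hi => ⟨(h2 i hi).1, hδ'.trans (h2 i hi).2⟩
    have h6 : 2 ≤ L * (1 + 12 / k) :=
      h4.trans (h5.trans (mul_le_mul_of_nonneg_left h3 (by linarith)))
    have h7 : (0 : ℝ) < 12 / k := by positivity
    have h8 : (24 : ℝ) / k = 2 * (12 / k) := by ring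
    rw [h8]
    by_contra hcon
    push Not at hcon
    nlinarith

end Pool.Agent.Results.MP_4833ba_an.EltonSharp
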