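import Pool.Agent.Work.MP_4833ba_an.Core
import Pool.Agent.Work.MP_4833ba_an.Banach

set_option autoImplicit false

open Filter Topology

namespace Pool.Agent.Results.MP_4833ba_an.EltonTwo

universe u

/-- `y` is `δ`-near unconditional with constant `K`: its basis constant is at most `K`, and
projections onto sets of coefficients of modulus at least `δ` have norm at most `K` on vectors
with coefficients of modulus at most one. -/
def NearUncond {X : Type u} [NormedAddCommGroup X] [NormedSpace ℝ X] (δ K : ℝ) (y : ℕ → X) :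
    Prop :=
  (∀ (a : ℕ → ℝ) (m k : ℕ), m ≤ k →
    ‖∑ i ∈ Finset.range m, a i • y i‖ ≤ K * ‖∑ i ∈ Finset.range k, a i • y i‖) ∧
  ∀ (k : ℕ) (a : ℕ → ℝ), (∀ i ≤ k, |a i| ≤ 1) → ∀ G : Finset ℕ, (∀ i ∈ G, i ≤ k ∧ δ ≤ |a i|) →
    ‖∑ i ∈ G, a i • y i‖ ≤ K * ‖∑ i ∈ Finset.range (k + 1), a i • y i‖

/-- every normalized weakly null sequence in every real Banach space has a subsequence that is
`δ`-near unconditional with constant `K` -/
def Works (δ K : ℝ) : Prop :=
  ∀ (X : Type u) [NormedAddCommGroup X] [NormedSpace ℝ X] [CompleteSpace X] (x : ℕ → X),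
    (∀ n, ‖x n‖ = 1) → (∀ f : X →L[ℝ] ℝ, Tendsto (fun n => f (x n)) atTop (𝓝 0)) →
      ∃ φ : ℕ → ℕ, StrictMono φ ∧ NearUncond δ K (fun n => x (φ n))

/-- the Elton constant `K(δ)` -/
noncomputable def eltonK (δ : ℝ) : ℝ := sInf {K : ℝ | 1 ≤ K ∧ Works.{u} δ K}

/-- The Elton constants are uniformly bounded: `K(δ) ≤ 2` for every `0 < δ ≤ 1`, and every
constant above two is admissible. -/
theorem result : ∀ δ : ℝ, 0 < δ → δ ≤ 1 →
    (∀ K : ℝ, 2 < K → Works.{u} δ K) ∧ eltonK.{u} δ ≤ 2 := by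
  intro δ hδ _
  have h : ∀ K : ℝ, 2 < K → Works.{u} δ K := fun K hK X _ _ _ x hn hx =>
    Pool.Agent.Work.MP_4833ba_an.near_unconditional Pool.Agent.Work.MP_4833ba_an.core hn hx hδ hK
  refine ⟨h, le_of_forall_gt_imp_ge_of_dense (fun K hK => ?_)⟩
  exact csInf_le ⟨1, fun K' hK' => hK'.1⟩ ⟨by linarith, h K hK⟩

end Pool.Agent.Results.MP_4833ba_an.EltonTwo
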